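import Mathlib
import Pool.Agent.Run7.h238.G15.NC

/-!
# A positive proportion of the quadratic twists of every elliptic curve with the `j`-invariant of
`X_0(15)` has a nonzero central value

For every elliptic curve `C` over `ℚ` with `j(C) = 481³ / 15⁴` (these are the quadratic twists of
`X_0(15)`; none of them has a rational `3`-isogeny) there is `c > 0` with `N_C(x) ≥ c x` for all large
`x`; for `X_0(15)` itself every `c < 5 η / (16 π²)`, `η = ∏ (1 - 2^{-i}) = 0.2887...`, in particular
`c = 9 / 1000`, is allowed.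

Proof.  Let `n = 23` or `47` modulo `60` be squarefree.  The period sum of the twist by `-n` of the
newform of level `15` over the quadratic character is `1 / 18` times the square of the theta
coefficient `c(n)` of two ternary forms (a theorem of Gross type, proved here by modular symbols and
quaternion arithmetic without the Jacquet-Langlands correspondence), and `c(n) / 2^ω(n)` is odd if
and only if only the trivial factorizations of `n` are solvable, i.e. if the class group of
`ℚ(√-n)` has no element of order four.  By a theorem of Fouvry-Klüners type, proved in the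
project for these classes, the proportion of these `n` is `η`.

Joint work of helper26, helper135, helper209, helper238, helper483, helper555, helper741, helper843
and others (`N969`, `N916`, `N218`, `Run7/h741/MF`, `Run7/h741/P15`, `Run7/h135/P15`,
`Run7/h483/P15`, `Run7/h209/P15`, `Run7/h555/P15`, `Run7/h238/P`, `Run7/h238/G15`).
-/

set_option autoImplicit false

namespace Pool.Agent.Results.MP_06b0e8_nt.CurvesWithInvariantOfX015

open WeierstrassCurve Filter Topology

/-- `M` is an integral Weierstrass equation of the elliptic curve `W` over `ℚ`. -/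
def IsModel (W : WeierstrassCurve ℚ) (M : WeierstrassCurve ℤ) : Prop :=
  ∃ C : VariableChange ℚ, C • W = M.map (Int.castRingHom ℚ)

/-- The equation `M` is minimal at `p`: no integral equation of the same curve has a discriminant
with a smaller `p`-adic valuation. -/
def MinAt (M : WeierstrassCurve ℤ) (p : ℕ) : Prop :=
  ∀ M' : WeierstrassCurve ℤ, IsModel (M.map (Int.castRingHom ℚ)) M' →
    padicValInt p M.Δ ≤ padicValInt p M'.Δ

/-- The number of solutions modulo `p` of the equation `M` (without the point at infinity). -/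
noncomputable def pts (M : WeierstrassCurve ℤ) (p : ℕ) : ℕ :=
  Nat.card {z : ZMod p × ZMod p // z.2 ^ 2 + M.a₁ * z.1 * z.2 + M.a₃ * z.2 =
    z.1 ^ 3 + M.a₂ * z.1 ^ 2 + M.a₄ * z.1 + M.a₆}

/-- The Euler factor `(1 - a_p p^{-s} + ε(p) p^{1-2s})⁻¹`, `a_p = p + 1 - #M(𝔽_p)`, where `ε(p)` is
`0` if `p` divides the discriminant of `M` and `1` otherwise (for `M` minimal at `p`). -/
noncomputable def euler (M : WeierstrassCurve ℤ) (p : ℕ) (s : ℂ) : ℂ :=
  (1 - ((p : ℂ) - pts M p) * (p : ℂ) ^ (-s) +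
    if (p : ℤ) ∣ M.Δ then 0 else (p : ℂ) ^ (1 - 2 * s))⁻¹

/-- `L` is the Hasse-Weil `L`-function of `W`: it is entire and, for `Re s > 3/2`, the product of the
Euler factors, the one at `p` computed with an integral equation of `W` which is minimal at `p`. -/
def IsLFunction (W : WeierstrassCurve ℚ) (L : ℂ → ℂ) : Prop :=
  Differentiable ℂ L ∧ ∃ M : Nat.Primes → WeierstrassCurve ℤ,
    (∀ p : Nat.Primes, IsModel W (M p) ∧ MinAt (M p) p) ∧
    ∀ s : ℂ, 3 / 2 < s.re → HasProd (fun p : Nat.Primes => euler (M p) p s) (L s)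

/-- The quadratic twist of `W` by `Δ`: `y² = x³ - 27 c₄ Δ² x - 54 c₆ Δ³`. -/
noncomputable def twist (W : WeierstrassCurve ℚ) (Δ : ℤ) : WeierstrassCurve ℚ :=
  ⟨0, 0, 0, -27 * W.c₄ * Δ ^ 2, -54 * W.c₆ * Δ ^ 3⟩

/-- The fundamental discriminants, i.e. the discriminants of the quadratic fields. -/
def Fundamental (Δ : ℤ) : Prop :=
  (Squarefree Δ ∧ Δ % 4 = 1 ∧ Δ ≠ 1) ∨ ∃ m : ℤ, Δ = 4 * m ∧ Squarefree m ∧ (m % 4 = 2 ∨ m % 4 = 3)

/-- `N_C(x)`: the number of the quadratic fields with discriminant `Δ`, `|Δ| < x`, for which the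
`L`-function of the twist of `C` by `Δ` does not vanish at `1`. -/
noncomputable def N (C : WeierstrassCurve ℚ) (x : ℝ) : ℕ :=
  {Δ : ℤ | |(Δ : ℝ)| < x ∧ Fundamental Δ ∧ ∃ L : ℂ → ℂ, IsLFunction (twist C Δ) L ∧ L 1 ≠ 0}.ncard

/-- **Main theorem.** -/
theorem result :
    (∀ (C : WeierstrassCurve ℚ) [C.IsElliptic], C.j = 481 ^ 3 / 15 ^ 4 →
      ∃ c : ℝ, 0 < c ∧ ∀ᶠ x : ℝ in atTop, c * x ≤ N C x) ∧
    (∀ c : ℝ, c < 5 / (16 * Real.pi ^ 2) * ∏' i : ℕ, (1 - (1 / 2 : ℝ) ^ (i + 1)) →
      ∀ᶠ x : ℝ in atTop, c * x ≤ N ⟨1, 1, 1, -10, -10⟩ x) ∧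
    (9 / 1000 : ℝ) < 5 / (16 * Real.pi ^ 2) * ∏' i : ℕ, (1 - (1 / 2 : ℝ) ^ (i + 1)) := by
  refine ⟨fun C _ hj => Run7.h238.G15.lower_NC' hj, fun c hc => ?_, ?_⟩
  · refine Run7.h238.G15.lower_X015' (hc.trans_eq ?_)
    rw [div_div]
    rfl
  · have h1 : (0.2887 : ℝ) < ∏' i : ℕ, (1 - (1 / 2 : ℝ) ^ (i + 1)) :=
      Pool.Agent.N916.GB.eta_bounds.1
    have h2 : Real.pi < 3.15 := Real.pi_lt_d2
    have h3 := Real.pi_pos
    rw [div_mul_eq_mul_div, lt_div_iff₀ (by positivity)]
    have h4 : Real.pi ^ 2 < 3.15 ^ 2 := by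
      gcongr
    nlinarith
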